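import Pool.Agent.helper37.CZ.Spec

set_option autoImplicit false

namespace Pool.Agent.CZ

theorem LC2_ent_mul {N k : ℕ} (A B : Matrix (Fin N × Fin k) (Fin N × Fin k) ℂ) (p q : ℕ × Fin k)
    (hp : p.1 < N) (hq : q.1 < N) :
    ent (A * B) p q = ∑ r ∈ Finset.range N ×ˢ (Finset.univ : Finset (Fin k)), ent A p r * ent B r q := by
  unfold ent
  rw [dif_pos ⟨hp, hq⟩, Matrix.mul_apply, Fintype.sum_prod_type, Finset.sum_product,
    Finset.sum_range]
  refine Finset.sum_congr rfl fun i _ => Finset.sum_congr rfl fun a _ => ?_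
  rw [dif_pos ⟨hp, i.2⟩, dif_pos ⟨i.2, hq⟩]

theorem LC2_ent_aN {X : Type} {k : ℕ} (E : X → ℤ × Fin k → ℤ × Fin k → ℂ) (x : X) (N : ℕ)
    (p q : ℕ × Fin k) (hp : p.1 < N) (hq : q.1 < N) :
    ent (aN E x N) p q = E x ((p.1 : ℤ), p.2) ((q.1 : ℤ), q.2) := by
  unfold ent aN
  rw [dif_pos ⟨hp, hq⟩]

theorem LC2_ent_one {N k : ℕ} (p q : ℕ × Fin k) (hp : p.1 < N) (hq : q.1 < N) :
    ent (1 : Matrix (Fin N × Fin k) (Fin N × Fin k) ℂ) p q = if p = q then 1 else 0 := by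
  unfold ent
  rw [dif_pos ⟨hp, hq⟩, Matrix.one_apply]
  by_cases h : p = q
  · subst h
    simp
  · rw [if_neg h, if_neg]
    intro h2
    apply h
    simp only [Prod.mk.injEq, Fin.mk.injEq] at h2
    exact Prod.ext h2.1 h2.2

theorem LC2_row {X : Type} {k : ℕ} {E : X → ℤ × Fin k → ℤ × Fin k → ℂ} {ρ K : ℝ} (h : RowB E ρ K)
    (x : X) (p : ℤ × Fin k) (S : Finset (ℕ × Fin k)) :
    ∑ r ∈ S, ‖E x p ((r.1 : ℤ), r.2)‖ * (ρ⁻¹) ^ (p.1 - (r.1 : ℤ)).natAbs ≤ K := by
  classical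
  have h1 := h.2.2.2.2 x p (S.image fun r => ((r.1 : ℤ), r.2))
  rw [Finset.sum_image] at h1
  · exact h1
  · intro r _ r' _ hrr
    simp only [Prod.mk.injEq, Nat.cast_inj] at hrr
    exact Prod.ext hrr.1 hrr.2

theorem LC2 (h1 : LC1_stmt) : LC2_stmt := by
  intro X _ α k E ρ K hK hR x M N j
  have hρ : 0 < ρ := hR.1
  have hρ1 : ρ < 1 := hR.2.1
  have hK1 : 1 ≤ K := hR.2.2.1
  have hK0 : 0 < K := by linarith
  induction j with
  | zero =>
    intro p q hMN hp hq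
    rw [pow_zero, pow_zero, LC2_ent_one p q (by omega) (by omega), LC2_ent_one p q hp hq, sub_self,
      norm_zero]
    positivity
  | succ j ih =>
    intro p q hMN hp hq
    have hpN : p.1 < N := by omega
    have hqN : q.1 < N := by omega
    rw [pow_succ', pow_succ', LC2_ent_mul _ _ p q hpN hqN, LC2_ent_mul _ _ p q hp hq]
    set S : Finset (ℕ × Fin k) := Finset.range M ×ˢ (Finset.univ : Finset (Fin k)) with hS
    set T : Finset (ℕ × Fin k) := Finset.Ico M N ×ˢ (Finset.univ : Finset (Fin k)) with hT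
    have hdis : Disjoint S T := by
      rw [Finset.disjoint_left]
      intro r hr hr'
      rw [hS, Finset.mem_product, Finset.mem_range] at hr
      rw [hT, Finset.mem_product, Finset.mem_Ico] at hr'
      omega
    have hun : Finset.range N ×ˢ (Finset.univ : Finset (Fin k)) = S ∪ T := by
      ext r
      simp only [hS, hT, Finset.mem_product, Finset.mem_range, Finset.mem_univ, and_true,
        Finset.mem_union, Finset.mem_Ico]
      omega
    rw [hun, Finset.sum_union hdis]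
    have e1 : (∑ r ∈ S, ent (aN E x N) p r * ent (aN E x N ^ j) r q +
        ∑ r ∈ T, ent (aN E x N) p r * ent (aN E x N ^ j) r q) -
        ∑ r ∈ S, ent (aN E x M) p r * ent (aN E x M ^ j) r q =
        ∑ r ∈ S, E x ((p.1 : ℤ), p.2) ((r.1 : ℤ), r.2) *
          (ent (aN E x N ^ j) r q - ent (aN E x M ^ j) r q) +
        ∑ r ∈ T, E x ((p.1 : ℤ), p.2) ((r.1 : ℤ), r.2) * ent (aN E x N ^ j) r q := by
      rw [add_sub_right_comm, ← Finset.sum_sub_distrib]
      congr 1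
      · refine Finset.sum_congr rfl fun r hr => ?_
        rw [hS, Finset.mem_product, Finset.mem_range] at hr
        rw [LC2_ent_aN E x N p r hpN (by omega), LC2_ent_aN E x M p r hp hr.1]
        ring
      · refine Finset.sum_congr rfl fun r hr => ?_
        rw [hT, Finset.mem_product, Finset.mem_Ico] at hr
        rw [LC2_ent_aN E x N p r hpN hr.1.2]
    rw [e1]
    set w : ℕ × Fin k → ℝ := fun r =>
      ‖E x ((p.1 : ℤ), p.2) ((r.1 : ℤ), r.2)‖ * (ρ⁻¹) ^ ((p.1 : ℤ) - (r.1 : ℤ)).natAbs with hw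
    set c : ℝ := K ^ j * ρ ^ ((M - p.1) + (M - q.1)) with hc
    have hinv : ∀ n : ℕ, (ρ⁻¹) ^ n * ρ ^ n = 1 := fun n => by
      rw [← mul_pow, inv_mul_cancel₀ hρ.ne', one_pow]
    have b1 : ∀ r ∈ S, ‖E x ((p.1 : ℤ), p.2) ((r.1 : ℤ), r.2) *
          (ent (aN E x N ^ j) r q - ent (aN E x M ^ j) r q)‖ ≤ w r * c := by
      intro r hr
      rw [hS, Finset.mem_product, Finset.mem_range] at hr
      rw [norm_mul, hw, mul_assoc]
      refine mul_le_mul_of_nonneg_left ?_ (norm_nonneg _)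
      refine (ih r q hMN hr.1 hq).trans ?_
      have h3 : ρ ^ ((M - r.1) + (M - q.1)) * ρ ^ ((p.1 : ℤ) - (r.1 : ℤ)).natAbs ≤
          ρ ^ ((M - p.1) + (M - q.1)) := by
        rw [← pow_add]
        refine pow_le_pow_of_le_one hρ.le hρ1.le ?_
        omega
      calc K ^ j * ρ ^ ((M - r.1) + (M - q.1))
          = (ρ⁻¹) ^ ((p.1 : ℤ) - (r.1 : ℤ)).natAbs *
            (K ^ j * (ρ ^ ((M - r.1) + (M - q.1)) * ρ ^ ((p.1 : ℤ) - (r.1 : ℤ)).natAbs)) := by
            have := hinv ((p.1 : ℤ) - (r.1 : ℤ)).natAbs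
            linear_combination (-(K ^ j * ρ ^ ((M - r.1) + (M - q.1)))) * this
        _ ≤ _ := by
            refine mul_le_mul_of_nonneg_left ?_ (by positivity)
            exact mul_le_mul_of_nonneg_left h3 (by positivity)
    have b2 : ∀ r ∈ T, ‖E x ((p.1 : ℤ), p.2) ((r.1 : ℤ), r.2) * ent (aN E x N ^ j) r q‖ ≤
        w r * c := by
      intro r hr
      rw [hT, Finset.mem_product, Finset.mem_Ico] at hr
      rw [norm_mul, hw, mul_assoc]
      refine mul_le_mul_of_nonneg_left ?_ (norm_nonneg _)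
      refine (h1 X α k E ρ K hK hR x N j r q hr.1.2 hqN).2.trans ?_
      have h3 : ρ ^ (nd r.1 q.1) * ρ ^ ((p.1 : ℤ) - (r.1 : ℤ)).natAbs ≤
          ρ ^ ((M - p.1) + (M - q.1)) := by
        rw [← pow_add]
        refine pow_le_pow_of_le_one hρ.le hρ1.le ?_
        unfold nd
        omega
      calc K ^ j * ρ ^ (nd r.1 q.1)
          = (ρ⁻¹) ^ ((p.1 : ℤ) - (r.1 : ℤ)).natAbs *
            (K ^ j * (ρ ^ (nd r.1 q.1) * ρ ^ ((p.1 : ℤ) - (r.1 : ℤ)).natAbs)) := by
            have := hinv ((p.1 : ℤ) - (r.1 : ℤ)).natAbs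
            linear_combination (-(K ^ j * ρ ^ (nd r.1 q.1))) * this
        _ ≤ _ := by
            refine mul_le_mul_of_nonneg_left ?_ (by positivity)
            exact mul_le_mul_of_nonneg_left h3 (by positivity)
    have hrow := LC2_row hR x ((p.1 : ℤ), p.2) (S ∪ T)
    have hc0 : 0 ≤ c := by positivity
    calc _ ≤ ‖∑ r ∈ S, E x ((p.1 : ℤ), p.2) ((r.1 : ℤ), r.2) *
          (ent (aN E x N ^ j) r q - ent (aN E x M ^ j) r q)‖ +
          ‖∑ r ∈ T, E x ((p.1 : ℤ), p.2) ((r.1 : ℤ), r.2) * ent (aN E x N ^ j) r q‖ := norm_add_le _ _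
      _ ≤ ∑ r ∈ S, w r * c + ∑ r ∈ T, w r * c := add_le_add
          (norm_sum_le_of_le _ b1) (norm_sum_le_of_le _ b2)
      _ = (∑ r ∈ S ∪ T, w r) * c := by rw [← Finset.sum_union hdis, Finset.sum_mul]
      _ ≤ K * c := mul_le_mul_of_nonneg_right hrow hc0
      _ = K ^ (j + 1) * ρ ^ ((M - p.1) + (M - q.1)) := by rw [hc, pow_succ]; ring

end Pool.Agent.CZ
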